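import Mathlib

/-!
# Characteristic polynomials of powers of matrices, companion matrices
-/

set_option autoImplicit false

open Polynomial

namespace Pool.Agent.H37.SV

/-- every monic polynomial is a characteristic polynomial -/
theorem exists_mat {R : Type} [CommRing R] [Nontrivial R] (P : R[X]) (hP : P.Monic) :
    ∃ (ι : Type) (_ : Fintype ι) (_ : DecidableEq ι) (M : Matrix ι ι R), M.charpoly = P := by
  classical
  set pb := AdjoinRoot.powerBasis' hP with hpb
  set M := Algebra.leftMulMatrix pb.basis (AdjoinRoot.root P) with hM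
  refine ⟨Fin pb.dim, inferInstance, inferInstance, M, ?_⟩
  have hdim : pb.dim = P.natDegree := rfl
  have h1 : M.charpoly.Monic := M.charpoly_monic
  have h2 : M.charpoly.natDegree = P.natDegree := by
    rw [Matrix.charpoly_natDegree_eq_dim, Fintype.card_fin, hdim]
  have h3 : aeval (AdjoinRoot.root P) M.charpoly = 0 := by
    apply Algebra.leftMulMatrix_injective pb.basis
    rw [map_zero, ← Polynomial.aeval_algHom_apply]
    exact Matrix.aeval_self_charpoly M
  rw [AdjoinRoot.aeval_eq, AdjoinRoot.mk_eq_zero] at h3
  exact (Polynomial.eq_of_monic_of_dvd_of_natDegree_le hP h1 h3 h2.le)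

variable {k : Type} [Field k] {ι : Type} [Fintype ι] [DecidableEq ι] {n : ℕ}

theorem card_of_charpoly (A : Matrix ι ι k) (a : Fin n → k)
    (hA : A.charpoly = ∏ i, (X - C (a i))) : Fintype.card ι = n := by
  have h1 := A.charpoly_natDegree_eq_dim
  rw [hA, natDegree_prod_of_monic _ _ fun i _ => monic_X_sub_C _] at h1
  simpa using h1.symm

theorem det_sub (A : Matrix ι ι k) (a : Fin n → k) (hA : A.charpoly = ∏ i, (X - C (a i))) (r : k) :
    (A - algebraMap k (Matrix ι ι k) r).det = ∏ i, (a i - r) := by
  have h1 : A - algebraMap k (Matrix ι ι k) r = -(Matrix.scalar ι r - A) := by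
    rw [neg_sub]
    rfl
  rw [h1, Matrix.det_neg, ← Matrix.eval_charpoly, hA, card_of_charpoly A a hA, eval_prod]
  have h2 : ∀ i : Fin n, a i - r = (-1) * (X - C (a i)).eval r := by
    intro i
    rw [eval_sub, eval_X, eval_C]
    ring
  rw [Finset.prod_congr rfl fun i _ => h2 i, Finset.prod_mul_distrib, Finset.prod_const,
    Finset.card_univ, Fintype.card_fin]

theorem det_aeval [IsAlgClosed k] (A : Matrix ι ι k) (a : Fin n → k)
    (hA : A.charpoly = ∏ i, (X - C (a i))) (p : k[X]) :
    (aeval A p).det = ∏ i, p.eval (a i) := by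
  have hp := (IsAlgClosed.splits p).eq_prod_roots
  have key : ∀ s : Multiset k, (aeval A (s.map fun r => X - C r).prod).det =
      ∏ i, (s.map fun r => X - C r).prod.eval (a i) := by
    intro s
    induction s using Multiset.induction with
    | empty => simp
    | cons r s ih =>
      rw [Multiset.map_cons, Multiset.prod_cons, map_mul, Matrix.det_mul, ih, map_sub, aeval_X,
        aeval_C, det_sub A a hA, ← Finset.prod_mul_distrib]
      refine Finset.prod_congr rfl fun i _ => ?_
      rw [eval_mul, eval_sub, eval_X, eval_C]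
  rw [hp, map_mul, Matrix.det_mul, key, aeval_C, Algebra.algebraMap_eq_smul_one, Matrix.det_smul,
    Matrix.det_one, mul_one, card_of_charpoly A a hA]
  have h1 : ∀ i : Fin n, (C p.leadingCoeff * (p.roots.map fun r => X - C r).prod).eval (a i) =
      p.leadingCoeff * (p.roots.map fun r => X - C r).prod.eval (a i) := by
    intro i
    rw [eval_mul, eval_C]
  rw [Finset.prod_congr rfl fun i _ => h1 i, Finset.prod_mul_distrib, Finset.prod_const,
    Finset.card_univ, Fintype.card_fin]

/-- The characteristic polynomial of a power. -/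
theorem charpoly_pow [IsAlgClosed k] (A : Matrix ι ι k) (a : Fin n → k)
    (hA : A.charpoly = ∏ i, (X - C (a i))) (m : ℕ) :
    (A ^ m).charpoly = ∏ i, (X - C (a i ^ m)) := by
  apply Polynomial.funext
  intro x
  have h1 : Matrix.scalar ι x - A ^ m = aeval A (C x - X ^ m) := by
    rw [map_sub, aeval_C, map_pow, aeval_X]
    rfl
  rw [Matrix.eval_charpoly, h1, det_aeval A a hA, eval_prod]
  refine Finset.prod_congr rfl fun i _ => ?_
  simp

/-- the polynomial whose roots are the powers of the roots of a monic polynomial over a subring -/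
theorem exists_pow {R S : Type} [CommRing R] [Nontrivial R] [CommRing S] [IsAlgClosed k]
    (f : R →+* S) (hf : Function.Injective f) (g : S →+* k) (hg : Function.Injective g)
    (P : R[X]) (a : Fin n → S) (hP : P.map f = ∏ i, (X - C (a i))) (m : ℕ) :
    ∃ P' : R[X], P'.map f = ∏ i, (X - C (a i ^ m)) := by
  have hmon : P.Monic := by
    refine Polynomial.monic_of_injective hf ?_
    rw [hP]
    exact monic_prod_of_monic _ _ fun i _ => monic_X_sub_C _
  obtain ⟨κ, _, _, M, hM⟩ := exists_mat P hmon
  refine ⟨(M ^ m).charpoly, ?_⟩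
  apply Polynomial.map_injective g hg
  set A : Matrix κ κ k := (g.comp f).mapMatrix M with hA
  have h1 : A.charpoly = ∏ i, (X - C (g (a i))) := by
    have h2 : A.charpoly = M.charpoly.map (g.comp f) := Matrix.charpoly_map M (g.comp f)
    rw [h2, hM, ← Polynomial.map_map, hP, Polynomial.map_prod]
    refine Finset.prod_congr rfl fun i _ => ?_
    rw [Polynomial.map_sub, map_X, map_C]
  have h3 := charpoly_pow A (fun i => g (a i)) h1 m
  have h4 : A ^ m = (g.comp f).mapMatrix (M ^ m) := by rw [hA, map_pow]
  have h5 : (A ^ m).charpoly = (M ^ m).charpoly.map (g.comp f) := by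
    rw [h4]
    exact Matrix.charpoly_map (M ^ m) (g.comp f)
  rw [h5, ← Polynomial.map_map] at h3
  rw [h3, Polynomial.map_prod]
  refine Finset.prod_congr rfl fun i _ => ?_
  rw [Polynomial.map_sub, map_X, Polynomial.map_C, map_pow g (a i) m]

/-- the characteristic polynomial of a diagonal matrix -/
theorem charpoly_diag {k' : Type} [CommRing k'] (A : Matrix ι ι k') (hA : A.IsDiag) :
    A.charpoly = ∏ i, (X - C (A i i)) := by
  rw [Matrix.charpoly]
  have h1 : A.charmatrix = Matrix.diagonal fun i => X - C (A i i) := by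
    ext i j
    by_cases h : i = j
    · subst h
      rw [Matrix.charmatrix_apply_eq, Matrix.diagonal_apply_eq]
    · rw [Matrix.charmatrix_apply_ne _ _ _ h, Matrix.diagonal_apply_ne _ h, hA h, map_zero, neg_zero]
  rw [h1, Matrix.det_diagonal]

end Pool.Agent.H37.SV
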